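import Mathlib

/-!
# End counts for the band sum problem
-/

namespace Pool.Agent.Helper35.BandEnd

open Finset Real

/-- Product formula: for odd `m` and `k` prime to `m`. -/
theorem prod_two_cos (m : ℕ) (hm : Odd m) (k : ℤ) (hk : IsCoprime k (m : ℤ)) (x : ℝ) :
    ∏ s ∈ range m, (2 * cos (x + 2 * π * k * s / m)) = 2 * cos (m * x) := by
  have hm0 : m ≠ 0 := by rintro rfl; simp at hm
  have hmC : (m : ℂ) ≠ 0 := by exact_mod_cast hm0
  apply Complex.ofReal_injective
  push_cast
  set z : ℂ := Complex.exp (x * Complex.I) with hz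
  set w : ℂ := Complex.exp (-(x * Complex.I)) with hw
  set ζ : ℂ := Complex.exp (2 * π * Complex.I / m) with hζ
  have hprim : IsPrimitiveRoot ζ m := Complex.isPrimitiveRoot_exp m hm0
  have hgcd : (k * (-2)).gcd (m : ℤ) = 1 := by
    rw [← Int.isCoprime_iff_gcd_eq_one]
    apply IsCoprime.mul_left hk
    obtain ⟨l, hl⟩ := hm
    refine ⟨l, 1, ?_⟩
    rw [hl]; push_cast; ring
  have hprim2 : IsPrimitiveRoot (ζ ^ (k * (-2))) m := hprim.zpow_of_gcd_eq_one _ hgcd
  have hgcd1 : k.gcd (m : ℤ) = 1 := by rwa [← Int.isCoprime_iff_gcd_eq_one]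
  have hprim1 : IsPrimitiveRoot (ζ ^ k) m := hprim.zpow_of_gcd_eq_one _ hgcd1
  set η : ℂ := ζ ^ (k * (-2)) with hη
  have hζ0 : ζ ≠ 0 := Complex.exp_ne_zero _
  have hprod := hprim2.pow_add_pow_eq_prod_add_mul (x := z) (y := w) hm
  have hreindex : ∏ ξ ∈ Polynomial.nthRootsFinset m (1 : ℂ), (z + ξ * w)
      = ∏ s ∈ range m, (z + η ^ s * w) := by
    symm
    apply Finset.prod_nbij (fun s => η ^ s)
    · intro s _
      rw [Polynomial.mem_nthRootsFinset (Nat.pos_of_ne_zero hm0)]
      rw [← pow_mul, mul_comm, pow_mul, hprim2.pow_eq_one, one_pow]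
    · intro a ha b hb hab
      have ha' := mem_range.1 (Finset.mem_coe.1 ha)
      have hb' := mem_range.1 (Finset.mem_coe.1 hb)
      exact hprim2.pow_inj ha' hb' hab
    · intro ξ hξ
      have hξ' := (Polynomial.mem_nthRootsFinset (Nat.pos_of_ne_zero hm0) (1 : ℂ)).1
        (Finset.mem_coe.1 hξ)
      have : NeZero m := ⟨hm0⟩
      obtain ⟨i, hi, hi2⟩ := hprim2.eq_pow_of_pow_eq_one hξ'
      exact ⟨i, Finset.mem_coe.2 (mem_range.2 hi), hi2⟩
    · intro s _
      rfl
  rw [hreindex] at hprod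
  have hfac : ∀ s ∈ range m,
      (2 * Complex.cos ((x : ℂ) + 2 * π * k * s / m)) = (ζ ^ k) ^ s * (z + η ^ s * w) := by
    intro s _
    have e1 : (ζ ^ k) ^ s = Complex.exp (2 * π * k * s / m * Complex.I) := by
      rw [hζ, ← Complex.exp_int_mul, ← Complex.exp_nat_mul]
      congr 1
      ring
    have e2 : (ζ ^ k) ^ s * η ^ s = Complex.exp (-(2 * π * k * s / m * Complex.I)) := by
      rw [hη, hζ, ← Complex.exp_int_mul, ← Complex.exp_nat_mul, ← Complex.exp_int_mul,
        ← Complex.exp_nat_mul, ← Complex.exp_add]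
      congr 1
      push_cast
      ring
    rw [mul_add, ← mul_assoc, e2, e1, Complex.two_cos, hz, hw, ← Complex.exp_add,
      ← Complex.exp_add]
    congr 1
    · congr 1; ring
    · congr 1; ring
  rw [Finset.prod_congr rfl hfac, Finset.prod_mul_distrib, ← hprod, Finset.prod_pow_eq_pow_sum,
    Finset.sum_range_id]
  have hone : (ζ ^ k) ^ (m * (m - 1) / 2) = 1 := by
    obtain ⟨l, hl⟩ := hm
    have : m * (m - 1) / 2 = m * l := by
      rw [hl]
      have : (2 * l + 1) * (2 * l + 1 - 1) = 2 * ((2 * l + 1) * l) := by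
        simp; ring
      rw [this, Nat.mul_div_cancel_left _ (by norm_num)]
    rw [this, pow_mul, hprim1.pow_eq_one, one_pow]
  rw [hone, one_mul, Complex.two_cos, hz, hw, ← Complex.exp_nat_mul, ← Complex.exp_nat_mul]
  congr 1
  · congr 1; ring
  · congr 1; ring

/-- Counting positive factors modulo 2 by the sign of the product. -/
theorem sum_pos {ι : Type*} (s : Finset ι) (a : ι → ℝ) (ha : ∀ i ∈ s, a i ≠ 0) :
    ∑ i ∈ s, (if 0 < a i then (1 : ZMod 2) else 0)
      = (s.card : ZMod 2) + (if 0 < ∏ i ∈ s, a i then 0 else 1) := by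
  classical
  induction s using Finset.induction_on with
  | empty => simp
  | insert i s his ih =>
    have h1 := ih (fun j hj => ha j (mem_insert_of_mem hj))
    have h2 := ha i (mem_insert_self i s)
    have h3 : ∏ j ∈ s, a j ≠ 0 := Finset.prod_ne_zero_iff.2
      (fun j hj => ha j (mem_insert_of_mem hj))
    rw [sum_insert his, h1, prod_insert his, card_insert_of_notMem his]
    push_cast
    have two : (1 : ZMod 2) + 1 = 0 := rfl
    rcases lt_or_gt_of_ne h2 with hi | hi <;> rcases lt_or_gt_of_ne h3 with hp | hp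
    · have : 0 < a i * ∏ j ∈ s, a j := mul_pos_of_neg_of_neg hi hp
      rw [if_neg hi.le.not_gt, if_neg hp.le.not_gt, if_pos this]
      ring
    · have : a i * ∏ j ∈ s, a j < 0 := mul_neg_of_neg_of_pos hi hp
      rw [if_neg hi.le.not_gt, if_pos hp, if_neg this.le.not_gt]
      linear_combination -two
    · have : a i * ∏ j ∈ s, a j < 0 := mul_neg_of_pos_of_neg hi hp
      rw [if_pos hi, if_neg hp.le.not_gt, if_neg this.le.not_gt]
      ring
    · have : 0 < a i * ∏ j ∈ s, a j := mul_pos hi hp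
      rw [if_pos hi, if_pos hp, if_pos this]
      ring

lemma odd_cast {m : ℕ} (hm : Odd m) : (m : ZMod 2) = 1 := by
  obtain ⟨l, rfl⟩ := hm
  push_cast
  have : (2 : ZMod 2) = 0 := rfl
  rw [this]; ring

/-- Parity of the number of positive cosines at equally spaced points. -/
theorem cos_count (m : ℕ) (hm : Odd m) (k : ℤ) (hk : IsCoprime k (m : ℤ)) (x : ℝ)
    (hx : cos (m * x) ≠ 0) :
    ∑ s ∈ range m, (if 0 < cos (x + 2 * π * k * s / m) then (1 : ZMod 2) else 0)
      = if 0 < cos (m * x) then 1 else 0 := by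
  have hP := prod_two_cos m hm k hk x
  have hne : ∀ s ∈ range m, 2 * cos (x + 2 * π * k * s / m) ≠ 0 := by
    intro s hs h0
    have : ∏ s ∈ range m, (2 * cos (x + 2 * π * k * s / m)) = 0 := Finset.prod_eq_zero hs h0
    rw [hP] at this
    exact hx (by linarith)
  have h1 := sum_pos (range m) (fun s : ℕ => 2 * cos (x + 2 * π * k * s / m)) hne
  rw [hP, card_range, odd_cast hm] at h1
  have h2 : ∀ s ∈ range m, (if 0 < cos (x + 2 * π * k * s / m) then (1 : ZMod 2) else 0)
      = (if 0 < 2 * cos (x + 2 * π * k * s / m) then (1 : ZMod 2) else 0) := by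
    intro s _
    have : (0 < cos (x + 2 * π * k * s / m)) ↔ (0 < 2 * cos (x + 2 * π * k * s / m)) := by
      constructor <;> intro h <;> linarith
    simp only [this]
  rw [sum_congr rfl h2, h1]
  by_cases h : 0 < cos (m * x)
  · rw [if_pos h, if_pos (by linarith)]; ring
  · rw [if_neg h, if_neg (by linarith)]; rfl

/-- blockwise summation -/
lemma sum_blocks (m N : ℕ) (g : ℕ → ZMod 2) :
    ∑ i ∈ range (m * N), g i = ∑ s ∈ range m, ∑ j ∈ range N, g (s * N + j) := by
  induction m with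
  | zero => simp
  | succ m ih =>
    rw [sum_range_succ, ← ih, Nat.succ_mul, Finset.sum_range_add]

lemma sin_pos_iff (s N j : ℕ) (hj : 1 ≤ j) (hjN : j ≤ N) :
    0 < sin (π * (((s * N + j : ℕ) : ℝ) - 1 / 2) / N) ↔ Even s := by
  have hN : 0 < N := by omega
  have hN' : (0 : ℝ) < N := by exact_mod_cast hN
  have hj1 : (1 : ℝ) ≤ j := by exact_mod_cast hj
  have hj2 : (j : ℝ) ≤ N := by exact_mod_cast hjN
  have hp := pi_pos
  have e : π * (((s * N + j : ℕ) : ℝ) - 1 / 2) / N = π * ((j : ℝ) - 1 / 2) / N + s * π := by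
    push_cast; field_simp; ring
  have hpos : 0 < sin (π * ((j : ℝ) - 1 / 2) / N) := by
    apply sin_pos_of_pos_of_lt_pi
    · apply div_pos _ hN'
      apply mul_pos hp; linarith
    · rw [div_lt_iff₀ hN']
      apply mul_lt_mul_of_pos_left _ hp
      linarith
  rw [e, Real.sin_add_nat_mul_pi]
  rcases Nat.even_or_odd s with h | h
  · rw [h.neg_one_pow, one_mul]
    exact ⟨fun _ => h, fun _ => hpos⟩
  · rw [h.neg_one_pow]
    constructor
    · intro h'; linarith
    · intro h'
      exact absurd h' (Nat.not_even_iff_odd.2 h)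

lemma sin_pos_iff0 (s N : ℕ) (hN : 1 ≤ N) :
    0 < sin (π * (((s * N + 0 : ℕ) : ℝ) - 1 / 2) / N) ↔ ¬ Even s := by
  have hN' : (1 : ℝ) ≤ N := by exact_mod_cast hN
  have hp := pi_pos
  have e : π * (((s * N + 0 : ℕ) : ℝ) - 1 / 2) / N = -(π / (2 * N)) + s * π := by
    push_cast; field_simp; ring
  have hpos : 0 < sin (π / (2 * N)) := by
    apply sin_pos_of_pos_of_lt_pi
    · positivity
    · rw [div_lt_iff₀ (by linarith)]
      nlinarith
  rw [e, Real.sin_add_nat_mul_pi, sin_neg]
  rcases Nat.even_or_odd s with h | h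
  · rw [h.neg_one_pow]
    constructor
    · intro h'; linarith
    · intro h'; exact absurd h h'
  · rw [h.neg_one_pow]
    constructor
    · intro _; exact Nat.not_even_iff_odd.2 h
    · intro _; linarith

theorem end_count (m : ℕ) (hm : Odd m) (κ : ℤ) (δ : ℕ) (hκ : Even (κ + δ * m))
    (hcop : IsCoprime κ (m : ℤ)) (A B : ℝ) (N : ℕ) (hN : 2 ≤ N)
    (hne : cos (m * B - κ * A - κ * π / (2 * N)) ≠ 0) :
    ∑ i ∈ Finset.range (m * N),
      (if 0 < cos (B + κ * ((π * ((i : ℝ) - 1 / 2) / N - A) / m))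
        * cos (π * ((i : ℝ) - 1 / 2) / N) ^ δ then (1 : ZMod 2) else 0)
      * ((if 0 < sin (π * ((i : ℝ) - 1 / 2) / N) then (1 : ZMod 2) else 0)
        + (if 0 < sin (π * (((i + 1 : ℕ) : ℝ) - 1 / 2) / N) then (1 : ZMod 2) else 0))
      = if 0 < cos (m * B - κ * A - κ * π / (2 * N)) then 1 else 0 := by
  have hm0 : m ≠ 0 := by rintro rfl; simp at hm
  have hmR : (m : ℝ) ≠ 0 := by exact_mod_cast hm0
  have hN' : (2 : ℝ) ≤ N := by exact_mod_cast hN
  have hNne : (N : ℝ) ≠ 0 := by linarith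
  have hp := pi_pos
  rw [sum_blocks]
  obtain ⟨k, hk⟩ := hκ
  have hk2 : κ = 2 * k - δ * m := by linarith
  have hkcop : IsCoprime k (m : ℤ) := by
    have h1 : IsCoprime (κ + δ * m) (m : ℤ) := by
      have := hcop.add_mul_right_left (δ : ℤ)
      exact this
    rw [hk, ← two_mul] at h1
    exact h1.of_mul_left_right
  set x : ℝ := (m * B - κ * A - κ * π / (2 * N)) / m with hx
  have hmx : (m : ℝ) * x = m * B - κ * A - κ * π / (2 * N) := by
    rw [hx]; field_simp
  have hcc := cos_count m hm k hkcop x (by rw [hmx]; exact hne)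
  rw [hmx] at hcc
  rw [← hcc]
  apply sum_congr rfl
  intro s _
  rw [sum_eq_single 0]
  · have i1 := sin_pos_iff0 s N (by omega)
    have i2 := sin_pos_iff s N 1 le_rfl (by omega)
    have hfac : ((if 0 < sin (π * (((s * N + 0 : ℕ) : ℝ) - 1 / 2) / N) then (1 : ZMod 2) else 0)
        + (if 0 < sin (π * (((s * N + 0 + 1 : ℕ) : ℝ) - 1 / 2) / N) then (1 : ZMod 2) else 0))
        = 1 := by
      have e : s * N + 0 + 1 = s * N + 1 := by ring
      rw [e]
      simp only [i1, i2]
      by_cases h : Even s <;> simp [h]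
    rw [hfac, mul_one]
    have hc : cos (π * (((s * N + 0 : ℕ) : ℝ) - 1 / 2) / N) = (-1) ^ s * cos (π / (2 * N)) := by
      have e : π * (((s * N + 0 : ℕ) : ℝ) - 1 / 2) / N = -(π / (2 * N)) + s * π := by
        push_cast; field_simp; ring
      rw [e, Real.cos_add_nat_mul_pi, cos_neg]
    have hcpos : 0 < cos (π / (2 * N)) := by
      apply cos_pos_of_mem_Ioo
      constructor
      · have : 0 < π / (2 * N) := by positivity
        linarith
      · rw [div_lt_iff₀ (by linarith)]
        nlinarith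
    rw [hc, mul_pow, ← pow_mul]
    have hy : cos (x + 2 * π * k * s / m)
        = (-1) ^ (s * δ) * cos (B + κ * ((π * (((s * N + 0 : ℕ) : ℝ) - 1 / 2) / N - A) / m)) := by
      rw [← Real.cos_add_nat_mul_pi]
      congr 1
      rw [hx]
      have hk3 : (κ : ℝ) = 2 * k - δ * m := by exact_mod_cast hk2
      push_cast
      rw [hk3]
      field_simp
      ring
    rw [hy]
    have hpw : 0 < cos (π / (2 * N)) ^ δ := pow_pos hcpos δ
    have hiff : (0 < cos (B + κ * ((π * (((s * N + 0 : ℕ) : ℝ) - 1 / 2) / N - A) / m))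
          * ((-1) ^ (s * δ) * cos (π / (2 * N)) ^ δ))
        ↔ (0 < (-1) ^ (s * δ)
          * cos (B + κ * ((π * (((s * N + 0 : ℕ) : ℝ) - 1 / 2) / N - A) / m))) := by
      have e : cos (B + κ * ((π * (((s * N + 0 : ℕ) : ℝ) - 1 / 2) / N - A) / m))
          * ((-1) ^ (s * δ) * cos (π / (2 * N)) ^ δ)
          = ((-1) ^ (s * δ)
          * cos (B + κ * ((π * (((s * N + 0 : ℕ) : ℝ) - 1 / 2) / N - A) / m)))
            * cos (π / (2 * N)) ^ δ := by ring
      rw [e]
      constructor
      · intro h; exact pos_of_mul_pos_left h hpw.le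
      · intro h; exact mul_pos h hpw
    simp only [hiff]
  · intro j hj hj0
    have hj' := mem_range.1 hj
    have i1 := sin_pos_iff s N j (by omega) (by omega)
    have i2 := sin_pos_iff s N (j + 1) (by omega) (by omega)
    have hfac : ((if 0 < sin (π * (((s * N + j : ℕ) : ℝ) - 1 / 2) / N) then (1 : ZMod 2) else 0)
        + (if 0 < sin (π * (((s * N + j + 1 : ℕ) : ℝ) - 1 / 2) / N) then (1 : ZMod 2) else 0))
        = 0 := by
      have e : s * N + j + 1 = s * N + (j + 1) := by ring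
      rw [e]
      simp only [i1, i2]
      by_cases h : Even s
      · simp only [h, if_true]; rfl
      · simp [h]
    rw [hfac, mul_zero]
  · intro h0
    exact absurd (mem_range.2 (by omega)) h0

theorem exists_mul_val (p : ℕ) [hp : Fact p.Prime] (hp2 : p ≠ 2) (c : ZMod p) (hc : c ≠ 0) :
    ∃ j : ZMod p, (1 : ℝ) / 6 ≤ ((j * c).val : ℝ) / p ∧ ((j * c).val : ℝ) / p ≤ 1 / 3 := by
  have h2 := hp.out.two_le
  have h3 : 3 ≤ p := by omega
  refine ⟨((p / 3 : ℕ) : ZMod p) * c⁻¹, ?_⟩
  have e : ((p / 3 : ℕ) : ZMod p) * c⁻¹ * c = ((p / 3 : ℕ) : ZMod p) := by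
    rw [mul_assoc, inv_mul_cancel₀ hc, mul_one]
  have hlt : p / 3 < p := Nat.div_lt_self (by omega) (by norm_num)
  rw [e, ZMod.val_natCast, Nat.mod_eq_of_lt hlt]
  have hpR : (0 : ℝ) < p := by exact_mod_cast (by omega : 0 < p)
  constructor
  · rw [div_le_div_iff₀ (by norm_num) hpR]
    have : p ≤ (p / 3) * 6 := by omega
    have h' : (p : ℝ) ≤ ((p / 3 : ℕ) : ℝ) * 6 := by exact_mod_cast this
    linarith
  · rw [div_le_div_iff₀ hpR (by norm_num)]
    have : (p / 3) * 3 ≤ p := by omega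
    have h' : ((p / 3 : ℕ) : ℝ) * 3 ≤ (p : ℝ) := by exact_mod_cast this
    linarith

end Pool.Agent.Helper35.BandEnd
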