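import Pool.Agent.Helper20.BandSum.Fam

/-!
# Rotations by `π` as involutive matrices
-/

namespace Pool.Agent.Helper20.BandSum

open Real Matrix

variable {n₁ : ℕ} {α β : ℕ → ℝ}

/-- involutive matrices -/
abbrev Inv3 : Type := {M : Matrix (Fin 3) (Fin 3) ℝ // M * M = 1}

/-- the kei of involutive matrices -/
def mop (A B : Inv3) : Inv3 := ⟨A.1 * B.1 * A.1, by
  have hA := A.2
  have hB := B.2
  calc A.1 * B.1 * A.1 * (A.1 * B.1 * A.1) = A.1 * B.1 * (A.1 * A.1) * B.1 * A.1 := by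
        simp only [Matrix.mul_assoc]
    _ = A.1 * (B.1 * B.1) * A.1 := by rw [hA, Matrix.mul_one, Matrix.mul_assoc A.1]
    _ = 1 := by rw [hB, Matrix.mul_one, hA]⟩

theorem isKei_mop : IsKei mop where
  idem a := by
    apply Subtype.ext
    change a.1 * a.1 * a.1 = a.1
    rw [a.2, Matrix.one_mul]
  inv a b := by
    apply Subtype.ext
    change a.1 * (a.1 * b.1 * a.1) * a.1 = b.1
    calc a.1 * (a.1 * b.1 * a.1) * a.1 = (a.1 * a.1) * b.1 * (a.1 * a.1) := by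
          simp only [Matrix.mul_assoc]
      _ = b.1 := by rw [a.2, Matrix.one_mul, Matrix.mul_one]
  dist a b c := by
    apply Subtype.ext
    change a.1 * (b.1 * c.1 * b.1) * a.1
      = a.1 * b.1 * a.1 * (a.1 * c.1 * a.1) * (a.1 * b.1 * a.1)
    calc a.1 * (b.1 * c.1 * b.1) * a.1
        = a.1 * b.1 * 1 * c.1 * 1 * b.1 * a.1 := by
          simp only [Matrix.mul_assoc, Matrix.mul_one]
      _ = a.1 * b.1 * (a.1 * a.1) * c.1 * (a.1 * a.1) * b.1 * a.1 := by rw [a.2]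
      _ = a.1 * b.1 * a.1 * (a.1 * c.1 * a.1) * (a.1 * b.1 * a.1) := by
          simp only [Matrix.mul_assoc]

/-- the rotation by `π` about a unit vector -/
def rot (X : {X : Fin 3 → ℝ // X ⬝ᵥ X = 1}) : Inv3 := ⟨2 • vecMulVec X.1 X.1 - 1, by
  have hX := X.2
  have h1 : vecMulVec X.1 X.1 * vecMulVec X.1 X.1 = vecMulVec X.1 X.1 := by
    rw [vecMulVec_mul_vecMulVec, hX]
    simp
  have h2 : (2 • vecMulVec X.1 X.1 - 1) * (2 • vecMulVec X.1 X.1 - 1)
      = 4 • (vecMulVec X.1 X.1 * vecMulVec X.1 X.1) - 4 • vecMulVec X.1 X.1 + 1 := by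
    noncomm_ring
  rw [h2, h1]
  simp⟩

theorem rot_apply (X : {X : Fin 3 → ℝ // X ⬝ᵥ X = 1}) (i j : Fin 3) :
    (rot X).1 i j = 2 * (X.1 i * X.1 j) - (1 : Matrix (Fin 3) (Fin 3) ℝ) i j := by
  change (2 • vecMulVec X.1 X.1 - 1 : Matrix (Fin 3) (Fin 3) ℝ) i j = _
  rw [Matrix.sub_apply, Matrix.smul_apply, vecMulVec_apply, nsmul_eq_mul]
  norm_num

theorem rot_vop (X Y : {X : Fin 3 → ℝ // X ⬝ᵥ X = 1}) :
    rot ⟨vop X.1 Y.1, by rw [vop_dot X.2]; exact Y.2⟩ = mop (rot X) (rot Y) := by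
  apply Subtype.ext
  change (2 • vecMulVec (vop X.1 Y.1) (vop X.1 Y.1) - 1 : Matrix (Fin 3) (Fin 3) ℝ)
    = (2 • vecMulVec X.1 X.1 - 1) * (2 • vecMulVec Y.1 Y.1 - 1) * (2 • vecMulVec X.1 X.1 - 1)
  have hX := X.2
  have hY := Y.2
  obtain ⟨X, _⟩ := X
  obtain ⟨Y, _⟩ := Y
  simp only at *
  have e1 : vecMulVec X X * vecMulVec Y Y = (X ⬝ᵥ Y) • vecMulVec X Y := by
    rw [vecMulVec_mul_vecMulVec, vecMulVec_smul]
  have e2 : vecMulVec Y Y * vecMulVec X X = (X ⬝ᵥ Y) • vecMulVec Y X := by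
    rw [vecMulVec_mul_vecMulVec, dotProduct_comm Y X, vecMulVec_smul]
  have e3 : vecMulVec X X * vecMulVec X X = vecMulVec X X := by
    rw [vecMulVec_mul_vecMulVec, hX, one_smul]
  have e4 : vecMulVec X Y * vecMulVec X X = (X ⬝ᵥ Y) • vecMulVec X X := by
    rw [vecMulVec_mul_vecMulVec, dotProduct_comm Y X, vecMulVec_smul]
  have e5 : (2 • vecMulVec X X - 1) * (2 • vecMulVec Y Y - 1) * (2 • vecMulVec X X - 1)
      = 8 • ((vecMulVec X X * vecMulVec Y Y) * vecMulVec X X)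
        - 4 • (vecMulVec X X * vecMulVec Y Y) - 4 • (vecMulVec Y Y * vecMulVec X X)
        - 4 • (vecMulVec X X * vecMulVec X X) + 4 • vecMulVec X X
        + 2 • vecMulVec Y Y - 1 := by
    noncomm_ring
  rw [e5, e1, e2, e3, smul_mul_assoc, e4]
  ext i j
  simp only [vop, vecMulVec_apply, Matrix.sub_apply, Matrix.add_apply, Matrix.smul_apply,
    Pi.sub_apply, Pi.smul_apply, smul_eq_mul]
  simp only [nsmul_eq_mul]
  push_cast
  ring

theorem eval_rot (t : Tm) (θ φ ψ : ℝ) :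
    eval mop (fun j => rot ⟨fam n₁ α β θ φ ψ j, F_unit (Tm.var j) θ φ ψ⟩) t =
      rot ⟨F n₁ α β t θ φ ψ, F_unit t θ φ ψ⟩ := by
  induction t with
  | var j => rfl
  | op s t ihs iht =>
    change mop (eval mop _ s) (eval mop _ t) = _
    rw [ihs, iht, ← rot_vop]
    rfl

theorem rot_eq {X Y : {X : Fin 3 → ℝ // X ⬝ᵥ X = 1}} (h : X.1 = Y.1 ∨ X.1 = -Y.1) :
    rot X = rot Y := by
  apply Subtype.ext
  ext i j
  rw [rot_apply, rot_apply]
  rcases h with h | h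
  · rw [h]
  · rw [h]
    simp

theorem rot_comm {X Y : {X : Fin 3 → ℝ // X ⬝ᵥ X = 1}} (h : X.1 ⬝ᵥ Y.1 = 0) :
    mop (rot X) (rot Y) = rot Y := by
  rw [← rot_vop]
  apply rot_eq
  right
  change vop X.1 Y.1 = -Y.1
  unfold vop
  rw [h]
  simp

/-- the vector of angle `x` in the plane moved by the rotation with Euler angles -/
noncomputable def wv (θ φ ψ x : ℝ) : Fin 3 → ℝ :=
  ![cos φ * cos (x + ψ) - sin φ * (cos θ * sin (x + ψ)),
    sin φ * cos (x + ψ) + cos φ * (cos θ * sin (x + ψ)), sin θ * sin (x + ψ)]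

theorem wv_dot (θ φ ψ x y : ℝ) : wv θ φ ψ x ⬝ᵥ wv θ φ ψ y = cos (x - y) := by
  have e : x - y = (x + ψ) - (y + ψ) := by ring
  rw [e, cos_sub]
  simp only [wv, dotProduct, Fin.sum_univ_three, cons_val_zero, cons_val_one, cons_val]
  linear_combination (cos (x + ψ) * cos (y + ψ)) * sin_sq_add_cos_sq φ +
    (cos θ ^ 2 * sin (x + ψ) * sin (y + ψ)) * sin_sq_add_cos_sq φ +
    (sin (x + ψ) * sin (y + ψ)) * sin_sq_add_cos_sq θ

theorem wv_unit (θ φ ψ x : ℝ) : wv θ φ ψ x ⬝ᵥ wv θ φ ψ x = 1 := by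
  rw [wv_dot, sub_self, cos_zero]

theorem wv_vop (θ φ ψ x y : ℝ) : vop (wv θ φ ψ x) (wv θ φ ψ y) = wv θ φ ψ (x + x - y) := by
  unfold vop
  rw [wv_dot]
  have e : x + x - y + ψ = (x + ψ) + (x - y) := by ring
  have e2 : y + ψ = (x + ψ) - (x - y) := by ring
  have c : cos (x + x - y + ψ) = 2 * cos (x - y) * cos (x + ψ) - cos (y + ψ) := by
    rw [e, e2, cos_add, cos_sub (x + ψ)]; ring
  have s : sin (x + x - y + ψ) = 2 * cos (x - y) * sin (x + ψ) - sin (y + ψ) := by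
    rw [e, e2, sin_add, sin_sub (x + ψ)]; ring
  ext i
  fin_cases i <;> simp [wv, c, s] <;> ring

theorem rot_wv_eq {θ φ ψ x y : ℝ}
    (h : rot ⟨wv θ φ ψ x, wv_unit θ φ ψ x⟩ = rot ⟨wv θ φ ψ y, wv_unit θ φ ψ y⟩) :
    sin (x - y) = 0 := by
  have h1 : ∀ i j, wv θ φ ψ x i * wv θ φ ψ x j = wv θ φ ψ y i * wv θ φ ψ y j := by
    intro i j
    have h2 := congrArg (fun A : Inv3 => A.1 i j) h
    simp only [rot_apply] at h2
    linarith
  have h3 : (wv θ φ ψ x ⬝ᵥ wv θ φ ψ y) ^ 2 = (wv θ φ ψ y ⬝ᵥ wv θ φ ψ y) ^ 2 := by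
    simp only [dotProduct, Fin.sum_univ_three]
    linear_combination (wv θ φ ψ y 0 * wv θ φ ψ y 0) * h1 0 0
      + (2 * wv θ φ ψ y 0 * wv θ φ ψ y 1) * h1 0 1
      + (2 * wv θ φ ψ y 0 * wv θ φ ψ y 2) * h1 0 2
      + (wv θ φ ψ y 1 * wv θ φ ψ y 1) * h1 1 1
      + (2 * wv θ φ ψ y 1 * wv θ φ ψ y 2) * h1 1 2
      + (wv θ φ ψ y 2 * wv θ φ ψ y 2) * h1 2 2
  rw [wv_dot, wv_dot, sub_self, cos_zero] at h3
  have h4 := sin_sq_add_cos_sq (x - y)
  have h5 : sin (x - y) ^ 2 = 0 := by linarith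
  exact pow_eq_zero_iff (two_ne_zero) |>.1 h5

/-- the angle of a residue class -/
noncomputable def ang {p : ℕ} (x : ZMod p) : ℝ := 2 * π * x.val / p

/-- the kei homomorphism from residue classes to rotations -/
noncomputable def zrot {p : ℕ} (θ φ ψ : ℝ) (x : ZMod p) : Inv3 :=
  rot ⟨wv θ φ ψ (ang x), wv_unit θ φ ψ (ang x)⟩

theorem wv_add_int (θ φ ψ x : ℝ) (k : ℤ) : wv θ φ ψ (x + 2 * π * k) = wv θ φ ψ x := by
  have e : x + 2 * π * k + ψ = (x + ψ) + k * (2 * π) := by ring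
  unfold wv
  rw [e, cos_add_int_mul_two_pi, sin_add_int_mul_two_pi]

theorem zrot_tak {p : ℕ} [NeZero p] (θ φ ψ : ℝ) (x y : ZMod p) :
    zrot θ φ ψ (tak x y) = mop (zrot θ φ ψ x) (zrot θ φ ψ y) := by
  unfold zrot
  rw [← rot_vop]
  apply rot_eq
  left
  change wv θ φ ψ (ang (tak x y)) = vop (wv θ φ ψ (ang x)) (wv θ φ ψ (ang y))
  rw [wv_vop]
  have hp : (p : ℝ) ≠ 0 := by exact_mod_cast NeZero.ne p
  -- the integer difference
  have h1 : (((x.val : ℤ) + x.val - y.val : ℤ) : ZMod p) = (((tak x y).val : ℤ) : ZMod p) := by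
    push_cast
    simp [tak, ZMod.natCast_val, ZMod.cast_id]
  have h2 := (ZMod.intCast_eq_intCast_iff_dvd_sub _ _ p).1 h1
  obtain ⟨k, hk⟩ := h2
  have h3 : ang (tak x y) = ang x + ang x - ang y + 2 * π * k := by
    unfold ang
    have h4 : (((tak x y).val : ℤ) : ℝ) - (((x.val : ℤ) + x.val - y.val : ℤ) : ℝ)
        = (p : ℝ) * k := by exact_mod_cast hk
    push_cast at h4
    field_simp
    linear_combination h4
  rw [h3, wv_add_int]

theorem zrot_inj {p : ℕ} [NeZero p] (hp : Odd p) {θ φ ψ : ℝ} {x y : ZMod p}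
    (h : zrot θ φ ψ x = zrot θ φ ψ y) : x = y := by
  have h1 := rot_wv_eq h
  rw [sin_eq_zero_iff] at h1
  obtain ⟨n, hn⟩ := h1
  have hp0 : (p : ℝ) ≠ 0 := by exact_mod_cast NeZero.ne p
  have hpi := pi_ne_zero
  have h2 : 2 * ((x.val : ℝ) - y.val) = n * p := by
    unfold ang at hn
    field_simp at hn
    linarith
  have h3 : 2 * ((x.val : ℤ) - y.val) = n * p := by exact_mod_cast h2
  have h4 : (2 : ZMod p) * (x - y) = 0 := by
    have h5 := congrArg (fun z : ℤ => (z : ZMod p)) h3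
    push_cast at h5
    simpa [ZMod.natCast_val, ZMod.cast_id] using h5
  have hu : IsUnit (2 : ZMod p) := by
    have := (ZMod.isUnit_iff_coprime 2 p).2 ((Nat.coprime_two_left).2 hp)
    exact_mod_cast this
  have h6 : x - y = 0 := by
    have := hu.mul_left_cancel (a := (2 : ZMod p)) (b := x - y) (c := 0) (by rw [h4, mul_zero])
    exact this
  exact sub_eq_zero.1 h6

end Pool.Agent.Helper20.BandSum
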