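import Pool.Agent.Helper35.BM.Sub

/-!
# The Bogomolov-Miyaoka-Yau inequality for arrangements of real linear lines

Let `L i` be finitely many linear subspaces of dimension `2 c` of a real vector space of dimension
`3 c`, any two of which meet in a subspace of dimension `c` (a point) which is contained in every
third one or meets it in `0` only. For `c = 2` the complex line arrangements in the complex
projective plane are examples, but there are many more, for instance those with equations
`y = A i x + B i z` where `A i`, `B i` are real `2 × 2` matrices. If the determinants of the
differences `A i - A j` are positive, the planes `y = A i x + B i e₁` in `ℝ⁴` are symplectic for one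
linear symplectic form, and the arrangement is that of symplectic lines in the complex projective
plane. We prove the orbifold inequality `c₁² ≤ 3 c₂` for all weights on the lines and on the
exceptional spheres for which the orbifold canonical class is nonnegative on the line and on the
pencils through the heavy points. This gives `c₁² ≤ 3 c₂` for the coverings branched along such
arrangements. The proof uses a scalar product which makes the arrangement (almost) isotropic.
-/

namespace Pool.Agent.Helper35.SubspaceLines

open Finset Pool.Agent.Helper35.BM

/-- If all weights are zero, `c₁²` is that of the projective plane blown up in the points of `B`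
(a check of the definition). -/
theorem c1sq_zero {ι : Type*} [Fintype ι] [DecidableEq ι] (B : Finset (Finset ι)) :
    c1sq B (fun _ => 0) (fun _ => 0) = 9 - #B := by
  simp only [c1sq, sum_const_zero, add_zero, sub_zero, sum_const, nsmul_eq_mul]
  ring

/-- If all weights are zero, `c₂` is the Euler number of the projective plane blown up in the
points of `B` (a check of the definition). -/
theorem c2_zero {ι : Type*} [Fintype ι] [DecidableEq ι] (P B : Finset (Finset ι)) (hB : B ⊆ P)
    (hc : ∀ p ∈ P \ B, #p = 2) : c2 P B (fun _ => 0) (fun _ => 0) = 3 + #B := by
  rw [c2_eq hB hc]
  have h : ∀ p ∈ P \ B, ∏ _i ∈ p, (0 : ℝ) = 0 := by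
    intro p hp
    rw [prod_const, hc p hp]
    norm_num
  rw [sum_congr rfl h]
  simp

/-- The inequality `c₁² ≤ 3 c₂` for the orbifold structures on a rank three `c`-arrangement.

Let `L i` be a rank three `c`-arrangement and `B` a set of points of intersection which contains
all points on at least three lines. Let `0 ≤ x i ≤ 1` be weights of the lines with sum at least
three and let `z p` be weights of the exceptional spheres such that, for every point `p` of `B`
whose lines have more than two thirds of the total weight, `2 ≤ ∑ x i - ∑_{i ∈ p} x i + z p` (the
canonical class of the orbifold is nonnegative on the pencil of lines through `p`). Then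
`c₁² ≤ 3 c₂`. -/
theorem result {ι V : Type*} [Fintype ι] [DecidableEq ι] [AddCommGroup V] [Module ℝ V] {c : ℕ}
    {L : ι → Submodule ℝ V} (h : IsArr c L) {B : Finset (Finset ι)} (hB : B ⊆ points L)
    (hB3 : ∀ p ∈ points L, 3 ≤ #p → p ∈ B) {x : ι → ℝ} (hx : ∀ i, 0 ≤ x i)
    (hx1 : ∀ i, x i ≤ 1) (hX : 3 ≤ ∑ i, x i) {z : Finset ι → ℝ}
    (hz : ∀ p ∈ B, 3 * ∑ i ∈ p, x i ≤ 2 * ∑ i, x i ∨ 2 ≤ ∑ i, x i - ∑ i ∈ p, x i + z p) :
    c1sq B x z ≤ 3 * c2 (points L) B x z :=
  h.bmy hB hB3 hx hx1 hX hz

end Pool.Agent.Helper35.SubspaceLines
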